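import Pool.Agent.L0h94.CO.Hol
import Pool.Agent.L0h94.FT.Par
import Pool.Agent.L0h94.FT.Om
import Pool.Agent.Y679.Fh.Bd

/-!
# The average of `x ^ rank` over the curves with full 2-torsion, ordered by the conductor
-/

set_option autoImplicit false

namespace Pool.Agent.L0h94.CO

open Finset Pool.Agent.H925R.Szpiro Pool.Agent.Y679.Par Pool.Agent.Y679.Cur Pool.Agent.Y679.Jl
  Pool.Agent.TH498.AR Pool.Agent.L0h94.FT Pool.Agent.W262.RK
open Pool.Agent.W307.RT (Sh)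

/-- the rank of `y² = x³ - a x - b` -/
noncomputable def rk (q : ℤ × ℤ) : ℕ :=
  Module.finrank ℤ (Pool.Agent.Y679.Fh.Eq q).toAffine.Point

lemma Eq_Sh (q : ℤ × ℤ) : Pool.Agent.Y679.Fh.Eq q = Sh (-q.1) (-q.2) := by
  unfold Pool.Agent.Y679.Fh.Eq Sh
  push_cast
  rfl

/-- the parameters -/
lemma mo_Rl {p : ℕ × ℕ} (h : Gd p) : Rl (-(mo p).1, -(mo p).2) p := by
  have h3 := mid_eq h.2.2.1
  refine ⟨mid p - p.1, h.1, h.2.1, by linarith, ?_, ?_⟩
  · unfold mo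
    simp only
    ring
  · unfold mo
    simp only
    ring

lemma rk_rk4 {p : ℕ × ℕ} (h : Gd p) : (4 : ℝ) ^ rk (mo p) = rk4 p := by
  unfold rk
  rw [Eq_Sh]
  exact rl_rank (mo_Rl h)

/-- the sum over a box of heights -/
lemma boxH : ∃ C : ℝ, 0 ≤ C ∧ ∀ S : Finset (ℤ × ℤ),
    (∀ q ∈ S, IsMin q.1 q.2 ∧ FullS q.1 q.2) → ∀ X : ℝ, 1 ≤ X →
    ∑ q ∈ S with ((Hh q : ℤ) : ℝ) ≤ X, (4 : ℝ) ^ rk q ≤ C * X ^ ((1 : ℝ) / 3) := by
  classical
  obtain ⟨C, hC, hb⟩ := boxsum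
  refine ⟨C * 16, by positivity, fun S hS X hX => ?_⟩
  have hX0 : 0 < X := by linarith
  have hch : ∀ q : ℤ × ℤ, ∃ p : ℕ × ℕ, q ∈ S → Gd p ∧ mo p = q := by
    intro q
    by_cases hq : q ∈ S
    · obtain ⟨h1, h2⟩ := hS q hq
      obtain ⟨p, hp, he⟩ := mo_surj h1 h2
      exact ⟨p, fun _ => ⟨hp, he⟩⟩
    · exact ⟨(0, 0), fun h => absurd h hq⟩
  choose F hF using hch
  set T : ℕ := ⌊(7 * X) ^ ((1 : ℝ) / 6)⌋₊ with hT
  have h7 : (1 : ℝ) ≤ 7 * X := by linarith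
  have hT1 : 1 ≤ T := by
    rw [hT]
    apply Nat.le_floor
    rw [Nat.cast_one]
    exact Real.one_le_rpow h7 (by norm_num)
  have hTle : (T : ℝ) ^ 2 ≤ 16 * X ^ ((1 : ℝ) / 3) := by
    have h1 : (T : ℝ) ≤ (7 * X) ^ ((1 : ℝ) / 6) := Nat.floor_le (by positivity)
    have h2 : (T : ℝ) ^ 2 ≤ ((7 * X) ^ ((1 : ℝ) / 6)) ^ 2 :=
      pow_le_pow_left₀ (Nat.cast_nonneg _) h1 2
    refine h2.trans ?_
    rw [← Real.rpow_natCast, ← Real.rpow_mul (by positivity)]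
    have e : (1 : ℝ) / 6 * (2 : ℕ) = 1 / 3 := by norm_num
    rw [e, Real.mul_rpow (by norm_num) hX0.le]
    refine mul_le_mul_of_nonneg_right ?_ (by positivity)
    calc (7 : ℝ) ^ ((1 : ℝ) / 3) ≤ 7 ^ (1 : ℝ) :=
          Real.rpow_le_rpow_of_exponent_le (by norm_num) (by norm_num)
      _ ≤ 16 := by rw [Real.rpow_one]; norm_num
  have hsz : ∀ x : ℕ, (x : ℝ) ^ 6 ≤ 7 * X → x ≤ T := by
    intro x hx
    rw [hT]
    apply Nat.le_floor
    have h1 : ((x : ℝ) ^ 6) ^ ((1 : ℝ) / 6) ≤ (7 * X) ^ ((1 : ℝ) / 6) :=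
      Real.rpow_le_rpow (by positivity) hx (by norm_num)
    rwa [← Real.rpow_natCast, ← Real.rpow_mul (Nat.cast_nonneg _),
      show ((6 : ℕ) : ℝ) * (1 / 6) = 1 by norm_num, Real.rpow_one] at h1
  have hinj : Set.InjOn F ((S.filter (fun q => ((Hh q : ℤ) : ℝ) ≤ X) : Finset (ℤ × ℤ)) : Set (ℤ × ℤ)) := by
    intro q hq q' hq' h
    have h1 := hF q (mem_filter.1 (mem_coe.1 hq)).1
    have h2 := hF q' (mem_filter.1 (mem_coe.1 hq')).1
    rw [← h1.2, ← h2.2, h]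
  have h1 : ∑ q ∈ S with ((Hh q : ℤ) : ℝ) ≤ X, (4 : ℝ) ^ rk q =
      ∑ t ∈ (S.filter (fun q => ((Hh q : ℤ) : ℝ) ≤ X)).image F, rk4 t := by
    rw [sum_image hinj]
    refine sum_congr rfl fun q hq => ?_
    obtain ⟨h2, h3⟩ := hF q (mem_filter.1 hq).1
    rw [← rk_rk4 h2, h3]
  rw [h1]
  have h2 : ∑ t ∈ (S.filter (fun q => ((Hh q : ℤ) : ℝ) ≤ X)).image F, rk4 t ≤ C * (T : ℝ) ^ 2 := by
    refine le_trans ?_ (hb T hT1)
    apply sum_le_sum_of_subset_of_nonneg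
    · intro t ht
      obtain ⟨q, hq, rfl⟩ := mem_image.1 ht
      obtain ⟨hqS, hqX⟩ := mem_filter.1 hq
      obtain ⟨hG, he⟩ := hF q hqS
      have h5 := mo_H hG
      rw [he] at h5
      have h6 : 27 * ((Hh q : ℤ) : ℝ) = 4 * (((F q).1 : ℝ) ^ 2 + (F q).1 * (F q).2 +
          ((F q).2 : ℝ) ^ 2) ^ 3 := by exact_mod_cast h5
      set u : ℝ := ((F q).1 : ℝ) with hu
      set v : ℝ := ((F q).2 : ℝ) with hv
      have hu0 : 0 ≤ u := Nat.cast_nonneg _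
      have hv0 : 0 ≤ v := Nat.cast_nonneg _
      have h7 : u ^ 2 ≤ u ^ 2 + u * v + v ^ 2 := by nlinarith [mul_nonneg hu0 hv0, sq_nonneg v]
      have h8 : v ^ 2 ≤ u ^ 2 + u * v + v ^ 2 := by nlinarith [mul_nonneg hu0 hv0, sq_nonneg u]
      have h9 : (u ^ 2) ^ 3 ≤ (u ^ 2 + u * v + v ^ 2) ^ 3 := pow_le_pow_left₀ (by positivity) h7 3
      have h10 : (v ^ 2) ^ 3 ≤ (u ^ 2 + u * v + v ^ 2) ^ 3 := pow_le_pow_left₀ (by positivity) h8 3
      have h11 : u ^ 6 = (u ^ 2) ^ 3 := by ring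
      have h12 : v ^ 6 = (v ^ 2) ^ 3 := by ring
      rw [mem_product, mem_Icc, mem_Icc]
      exact ⟨⟨hG.1, hsz _ (by rw [← hu, h11]; linarith)⟩,
        ⟨hG.2.1, hsz _ (by rw [← hv, h12]; linarith)⟩⟩
    · intro t _ _
      exact rk4_nonneg t
  refine h2.trans ?_
  rw [mul_assoc]
  exact mul_le_mul_of_nonneg_left hTle hC

/-- the trivial bound -/
lemma rk_small {ε : ℝ} (hε : 0 < ε) : ∃ C : ℝ, 0 ≤ C ∧ ∀ q : ℤ × ℤ, IsMin q.1 q.2 →
    FullS q.1 q.2 → (4 : ℝ) ^ rk q ≤ C * (condS q.1 q.2 : ℝ) ^ ε := by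
  obtain ⟨C, hC, hom⟩ := om_le 16 ε (by norm_num) hε
  refine ⟨16 ^ 4 * C, by positivity, fun q h1 h2 => ?_⟩
  obtain ⟨p, hp, he⟩ := mo_surj h1 h2
  have hcond : condS q.1 q.2 = g6 p := by
    have := mo_cond hp
    rwa [he] at this
  rw [hcond]
  have h3 : (4 : ℝ) ^ rk q = rk4 p := by rw [← rk_rk4 hp, he]
  rw [h3]
  have hp1 : (p.1 : ℤ) ≠ 0 := by exact_mod_cast hp.1.ne'
  have hp2 : (p.2 : ℤ) ≠ 0 := by exact_mod_cast hp.2.1.ne'
  have hp3 : (p.1 : ℤ) + p.2 ≠ 0 := by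
    have h4 : (0 : ℤ) < p.1 := by exact_mod_cast hp.1
    have h5 : (0 : ℤ) < p.2 := by exact_mod_cast hp.2.1
    omega
  have h4 := rank_triv hp1 hp3 (by omega)
  have hg0 : g6 p ≠ 0 := by
    rw [← hcond]
    exact (condS_pos _ _).ne'
  have hsub : (2 * (p.1 : ℤ) * (p.1 + p.2) * (p.1 - (p.1 + p.2))).natAbs.primeFactors ⊆
      {2, 3} ∪ (g6 p).primeFactors := by
    intro l hl
    have hlp := Nat.prime_of_mem_primeFactors hl
    have hld := Nat.dvd_of_mem_primeFactors hl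
    rw [mem_union, mem_insert, mem_singleton, Nat.mem_primeFactors]
    by_cases hl5 : 5 ≤ l
    · right
      refine ⟨hlp, ?_, hg0⟩
      have h5 : l ∣ nn p := by
        have h6 : (2 * (p.1 : ℤ) * (p.1 + p.2) * (p.1 - (p.1 + p.2))).natAbs = 2 * nn p := by
          have : 2 * (p.1 : ℤ) * (p.1 + p.2) * (p.1 - (p.1 + p.2)) = -((2 * nn p : ℕ) : ℤ) := by
            unfold nn
            push_cast
            ring
          rw [this, Int.natAbs_neg, Int.natAbs_natCast]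
        rw [h6] at hld
        rcases (hlp.dvd_mul).1 hld with h | h
        · have := Nat.le_of_dvd (by norm_num) h
          omega
        · exact h
      unfold g6
      have hmem : l ∈ (nn p).primeFactors.filter (fun q => 5 ≤ q) := by
        rw [mem_filter, Nat.mem_primeFactors]
        exact ⟨⟨hlp, h5, (nn_pos' hp).ne'⟩, hl5⟩
      refine dvd_trans ?_ (dvd_prod_of_mem _ hmem)
      split_ifs
      · exact dvd_pow_self l two_ne_zero
      · exact dvd_rfl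
    · left
      have h2l := hlp.two_le
      interval_cases l
      · exact Or.inl rfl
      · exact Or.inr rfl
      · exact absurd hlp (by norm_num)
  have hcard : (2 * (p.1 : ℤ) * (p.1 + p.2) * (p.1 - (p.1 + p.2))).natAbs.primeFactors.card ≤
      2 + (g6 p).primeFactors.card := by
    refine (card_le_card hsub).trans ((card_union_le _ _).trans ?_)
    have : ({2, 3} : Finset ℕ).card ≤ 2 := card_le_two
    omega
  have h5 : 2 ^ Module.finrank ℤ (EAB (p.1 : ℤ) ((p.1 : ℤ) + p.2)).toAffine.Point ≤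
      4 ^ (4 + (g6 p).primeFactors.card) :=
    h4.trans (Nat.pow_le_pow_right (by norm_num) (by omega))
  have h6 : rk4 p ≤ (16 : ℝ) ^ (4 + (g6 p).primeFactors.card) := by
    unfold rk4 rkE
    have h7 : (4 : ℝ) ^ Module.finrank ℤ (EAB (p.1 : ℤ) ((p.1 : ℤ) + p.2)).toAffine.Point =
        (((2 ^ Module.finrank ℤ (EAB (p.1 : ℤ) ((p.1 : ℤ) + p.2)).toAffine.Point : ℕ) : ℝ)) ^ 2 := by
      push_cast
      rw [← pow_mul, mul_comm, pow_mul]
      norm_num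
    have h8 : (16 : ℝ) ^ (4 + (g6 p).primeFactors.card) =
        (((4 ^ (4 + (g6 p).primeFactors.card) : ℕ) : ℝ)) ^ 2 := by
      push_cast
      rw [← pow_mul, mul_comm, pow_mul]
      norm_num
    rw [h7, h8]
    exact pow_le_pow_left₀ (Nat.cast_nonneg _) (by exact_mod_cast h5) 2
  refine h6.trans ?_
  rw [pow_add, mul_assoc]
  exact mul_le_mul_of_nonneg_left (hom _ hg0) (by positivity)

/-- **The sum over the curves of conductor at most `N`** -/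
theorem sumC {x : ℝ} (hx : 1 < x) (hx3 : x ^ 3 < 4) : ∃ C : ℝ, 0 ≤ C ∧ ∀ lam : ℤ × ℤ → ℕ,
    (∀ q : ℤ × ℤ, IsMin q.1 q.2 → FullS q.1 q.2 → 1 ≤ lam q) → ∀ N : ℝ, 1 ≤ N →
    ∀ S : Finset (ℤ × ℤ), (S : Set (ℤ × ℤ)) = Md lam N →
    ∑ q ∈ S, x ^ rk q ≤ C * N ^ ((2 : ℝ) / 3) := by
  classical
  have hlx : 0 < Real.log x := Real.log_pos hx
  have hp3 : 3 < Real.log 4 / Real.log x := by
    rw [lt_div_iff₀ hlx]
    have := Real.log_lt_log (by positivity) hx3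
    rw [Real.log_pow] at this
    exact_mod_cast this
  have h16 : 1 / (3 * (Real.log 4 / Real.log x - 1)) < 1 / 6 := by
    apply one_div_lt_one_div_of_lt (by norm_num)
    linarith
  obtain ⟨σ, hσ1, hσ2⟩ := exists_between h16
  have hσ0 : 0 < σ := by
    refine lt_trans ?_ hσ1
    have : 0 < Real.log 4 / Real.log x - 1 := by linarith
    positivity
  obtain ⟨η, C2, hη, hC2, hle⟩ := H_le hσ0 hσ2
  obtain ⟨C1, hC1, hbox⟩ := boxH
  obtain ⟨C3, hC3, hsm⟩ := rk_small (ε := η * σ) (by positivity)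
  obtain ⟨C, hC, hint⟩ := interp hx hx3 hη hσ1 (by linarith) hC1 hC2.le hC3
  refine ⟨C, hC, fun lam hlam N hN S hS => ?_⟩
  have hSm : ∀ q ∈ S, q ∈ Md lam N := by
    intro q hq
    rw [← hS]
    exact mem_coe.2 hq
  have hcN : ∀ q ∈ S, (condS q.1 q.2 : ℝ) ≤ N := by
    intro q hq
    obtain ⟨a1, a2, a3⟩ := hSm q hq
    refine le_trans ?_ a3
    exact_mod_cast Nat.le_mul_of_pos_left _ (hlam q a1 a2)
  refine hint (ℤ × ℤ) S (fun q => ((Hh q : ℤ) : ℝ)) rk N hN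
    (fun X hX => hbox S (fun q hq => ⟨(hSm q hq).1, (hSm q hq).2.1⟩) X hX) ?_ ?_
  · intro K hK
    have h1 := hle lam hlam N K hN hK
    refine le_trans (Nat.cast_le.2 ?_) h1
    rw [← Set.ncard_coe_finset]
    refine Set.ncard_le_ncard ?_ ((Md_fin hlam hN).subset fun q hq => hq.1)
    intro q hq
    rw [mem_coe, mem_filter] at hq
    refine ⟨hSm q hq.1, lt_of_le_of_lt ?_ hq.2⟩
    refine mul_le_mul_of_nonneg_left ?_ (by linarith)
    exact pow_le_pow_left₀ (Nat.cast_nonneg _) (hcN q hq.1) 2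
  · intro q hq
    obtain ⟨a1, a2, a3⟩ := hSm q hq
    refine (hsm q a1 a2).trans (mul_le_mul_of_nonneg_left ?_ hC3)
    exact Real.rpow_le_rpow (Nat.cast_nonneg _) (hcN q hq) (by positivity)

end Pool.Agent.L0h94.CO
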