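import Pool.Agent.L0h94.CO.Thm

/-!
# The ordering by height: the average of `4 ^ rank`
-/

set_option autoImplicit false

namespace Pool.Agent.L0h94.CO

open Finset Pool.Agent.L0h94.FT
open Pool.Agent.W307.RT (Sh Cv HasT LOW)

lemma hasT_of_full {A B : ℤ} (hD : 4 * A ^ 3 + 27 * B ^ 2 ≠ 0) (h : Full A B) :
    HasT 2 (Sh A B) := by
  obtain ⟨r1, r2, r3, h⟩ := h
  have c0 := h 0
  have c1 := h 1
  have c2 := h (-1)
  have s : r1 + r2 + r3 = 0 := by linarith
  have hA : (A : ℚ) = r1 * r2 + r1 * r3 + r2 * r3 := by linarith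
  have hB : (B : ℚ) = -(r1 * r2 * r3) := by linarith
  have h12 : r1 ≠ r2 := by
    rintro rfl
    apply hD
    have h3 : r3 = -2 * r1 := by linarith
    have : (4 : ℚ) * A ^ 3 + 27 * B ^ 2 = 0 := by
      rw [hA, hB, h3]
      ring
    exact_mod_cast this
  have hDq : (4 : ℚ) * A ^ 3 + 27 * B ^ 2 ≠ 0 := by exact_mod_cast hD
  have hns : ∀ r : ℚ, r ^ 3 + A * r + B = 0 → (Sh A B).toAffine.Nonsingular r 0 := by
    intro r hr
    rw [WeierstrassCurve.Affine.nonsingular_iff, WeierstrassCurve.Affine.equation_iff]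
    refine ⟨?_, ?_⟩
    · simp only [Sh]
      linarith
    · left
      simp only [Sh]
      intro h0
      have e1 : 3 * r ^ 2 + A = 0 := by linarith
      apply hDq
      have e2 : (A : ℚ) = -3 * r ^ 2 := by linarith
      have e3 : (B : ℚ) = 2 * r ^ 3 := by
        rw [e2] at hr
        linarith
      rw [e2, e3]
      ring
  have n1 := hns r1 (by rw [h r1]; ring)
  have n2 := hns r2 (by rw [h r2]; ring)
  have dbl : ∀ (x : ℚ) (h : (Sh A B).toAffine.Nonsingular x 0),
      (WeierstrassCurve.Affine.Point.some x 0 h : (Sh A B).toAffine.Point) +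
        WeierstrassCurve.Affine.Point.some x 0 h = 0 := by
    intro x h
    apply WeierstrassCurve.Affine.Point.add_self_of_Y_eq
    simp [WeierstrassCurve.Affine.negY, Sh]
  have ord : ∀ (x : ℚ) (h : (Sh A B).toAffine.Nonsingular x 0),
      addOrderOf (WeierstrassCurve.Affine.Point.some x 0 h : (Sh A B).toAffine.Point) = 2 := by
    intro x h
    refine addOrderOf_eq_prime ?_ (WeierstrassCurve.Affine.Point.some_ne_zero _)
    rw [two_nsmul]
    exact dbl x h
  refine ⟨.some r1 0 n1, .some r2 0 n2, ord _ _, ord _ _, ?_⟩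
  intro hm
  obtain ⟨k, hk⟩ := AddSubgroup.mem_zmultiples_iff.1 hm
  rcases Int.even_or_odd' k with ⟨j, hj | hj⟩
  · rw [hj, mul_comm, mul_zsmul, two_zsmul, dbl, zsmul_zero] at hk
    exact WeierstrassCurve.Affine.Point.some_ne_zero _ hk.symm
  · rw [hj, add_zsmul, one_zsmul, mul_comm, mul_zsmul, two_zsmul, dbl, zsmul_zero, zero_add,
      WeierstrassCurve.Affine.Point.some.injEq] at hk
    exact h12 hk.1

lemma fam_height (X : ℕ) : Fam height X = (Cv 2 X : Set (ℤ × ℤ)) := by
  classical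
  ext c
  constructor
  · rintro ⟨h1, h2, h3⟩
    have h4 : max (4 * |c.1| ^ 3) (27 * c.2 ^ 2) ≤ (X : ℤ) := by
      rw [← Int.toNat_le]
      exact h3
    have h5 := (le_max_left _ _).trans h4
    have h6 := (le_max_right _ _).trans h4
    have hA : |c.1| ≤ X := by
      rcases (abs_nonneg c.1).eq_or_lt with h0 | h0
      · rw [← h0]
        positivity
      · have h7 : |c.1| ≤ |c.1| ^ 3 := le_self_pow₀ (by omega) (by norm_num)
        linarith [pow_nonneg (abs_nonneg c.1) 3]
    have hB : |c.2| ≤ X := by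
      rcases (abs_nonneg c.2).eq_or_lt with h0 | h0
      · rw [← h0]
        positivity
      · have h7 : |c.2| ≤ |c.2| ^ 2 := le_self_pow₀ (by omega) (by norm_num)
        rw [sq_abs] at h7
        linarith [sq_nonneg c.2]
    rw [mem_coe]
    unfold Cv
    rw [mem_filter, mem_product, mem_Icc, mem_Icc]
    exact ⟨⟨abs_le.1 hA, abs_le.1 hB⟩, h1.1, h5, h6, h1.2, hasT_of_full h1.1 h2⟩
  · intro h
    exact cv_fam (mem_coe.1 h)

/-- the average of `4 ^ rank` in the ordering by height -/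
theorem hgt4 : ∃ C : ℝ, ∀ X : ℕ,
    ∑ᶠ c ∈ Fam height X, (4 : ℝ) ^ rank c ≤ C * ((Fam height X).ncard : ℝ) := by
  obtain ⟨C, hC⟩ := main2
  refine ⟨C, fun X => ?_⟩
  rw [fam_height, Set.ncard_coe_finset, finsum_mem_coe_finset]
  exact hC X

end Pool.Agent.L0h94.CO
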