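import Mathlib

/-!
# Interpolation between a moment in boxes and a count of the sparse members
-/

set_option autoImplicit false

namespace Pool.Agent.L0h94.CO

open Finset

/-- Young's inequality in the form used -/
lemma young {x p : ℝ} (hx : 1 < x) (hp : 1 < p) (hxp : x ^ p = 4) {lam : ℝ} (hl : 0 < lam) (r : ℕ) :
    x ^ r ≤ lam * 4 ^ r + lam ^ (-(1 / (p - 1))) := by
  have hx0 : 0 < x := by linarith
  have hp1 : 0 < p - 1 := by linarith
  have h4 : (4 : ℝ) ^ r = (x ^ r) ^ p := by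
    rw [← hxp, ← Real.rpow_natCast (x ^ p) r, ← Real.rpow_mul hx0.le, mul_comm p,
      Real.rpow_mul hx0.le, Real.rpow_natCast]
  set t : ℝ := x ^ r with ht
  have ht0 : 0 < t := by positivity
  have hL : 0 < lam ^ (-(1 / (p - 1))) := by positivity
  rcases le_total t (lam ^ (-(1 / (p - 1)))) with h | h
  · have : 0 ≤ lam * (4 : ℝ) ^ r := by positivity
    linarith
  · have h1 : (lam ^ (-(1 / (p - 1)))) ^ (p - 1) ≤ t ^ (p - 1) :=
      Real.rpow_le_rpow hL.le h hp1.le
    rw [← Real.rpow_mul hl.le] at h1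
    have h2 : -(1 / (p - 1)) * (p - 1) = -1 := by field_simp
    rw [h2, Real.rpow_neg_one] at h1
    have h3 : 1 ≤ lam * t ^ (p - 1) := by
      have := mul_le_mul_of_nonneg_left h1 hl.le
      rwa [mul_inv_cancel₀ hl.ne'] at this
    have h5 : t ^ p = t * t ^ (p - 1) := by
      have : p = 1 + (p - 1) := by ring
      nth_rewrite 1 [this]
      rw [Real.rpow_add ht0, Real.rpow_one]
    rw [h4, h5]
    nlinarith

lemma geom_le {g : ℝ} (h0 : 0 ≤ g) (h1 : g < 1) (n : ℕ) : ∑ k ∈ range n, g ^ k ≤ 1 / (1 - g) := by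
  have h := (summable_geometric_of_lt_one h0 h1).sum_le_tsum (range n)
    (fun i _ => pow_nonneg h0 i)
  rwa [tsum_geometric_of_lt_one h0 h1, ← one_div] at h

/-- the dyadic class -/
noncomputable def kk (ρ : ℝ) : ℕ := Nat.clog 2 ⌈ρ⌉₊

lemma le_kk (ρ : ℝ) : ρ ≤ 2 ^ kk ρ := by
  refine (Nat.le_ceil ρ).trans ?_
  have := Nat.le_pow_clog (b := 2) (by norm_num) ⌈ρ⌉₊
  exact_mod_cast this

lemma lt_kk {ρ : ℝ} (h : 1 ≤ kk ρ) : (2 : ℝ) ^ (kk ρ - 1) < ρ := by
  have h1 : 2 ^ (kk ρ - 1) < ⌈ρ⌉₊ := by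
    have h2 : 1 < ⌈ρ⌉₊ := by
      by_contra h3
      push Not at h3
      unfold kk at h
      rw [Nat.clog_of_right_le_one h3] at h
      omega
    exact Nat.pow_pred_clog_lt_self (by norm_num) h2
  have h2 := Nat.lt_ceil.1 h1
  exact_mod_cast h2

theorem interp {x σ η : ℝ} (hx : 1 < x) (hx3 : x ^ 3 < 4) (hη : 0 < η)
    (hσ : 1 / (3 * (Real.log 4 / Real.log x - 1)) < σ) (hσ1 : σ < 1) {C1 C2 C3 : ℝ} (h1 : 0 ≤ C1)
    (h2 : 0 ≤ C2) (h3 : 0 ≤ C3) :
    ∃ C : ℝ, 0 ≤ C ∧ ∀ (ι : Type) (S : Finset ι) (H : ι → ℝ) (r : ι → ℕ) (N : ℝ), 1 ≤ N →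
      (∀ X : ℝ, 1 ≤ X → ∑ q ∈ S with H q ≤ X, (4 : ℝ) ^ r q ≤ C1 * X ^ ((1 : ℝ) / 3)) →
      (∀ K : ℝ, 1 ≤ K → ((#{q ∈ S | K * N ^ 2 < H q} : ℕ) : ℝ) ≤
        C2 * (K ^ (-σ) * N ^ ((2 : ℝ) / 3) + N ^ (2 / 3 - η))) →
      (∀ q ∈ S, (4 : ℝ) ^ r q ≤ C3 * N ^ (η * σ)) →
      ∑ q ∈ S, x ^ r q ≤ C * N ^ ((2 : ℝ) / 3) := by
  classical
  set p : ℝ := Real.log 4 / Real.log x with hp
  have hx0 : 0 < x := by linarith
  have hlx : 0 < Real.log x := Real.log_pos hx
  have hp3 : 3 < p := by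
    rw [hp, lt_div_iff₀ hlx]
    have := Real.log_lt_log (by positivity) hx3
    rw [Real.log_pow] at this
    exact_mod_cast this
  have hxp : x ^ p = 4 := by
    rw [Real.rpow_def_of_pos hx0, hp, mul_div_cancel₀ _ hlx.ne', Real.exp_log (by norm_num)]
  set e : ℝ := 1 / (p - 1) with he
  have he0 : 0 < e := by
    rw [he]
    have : 0 < p - 1 := by linarith
    positivity
  have hes : e / 3 < σ := by
    have : e / 3 = 1 / (3 * (p - 1)) := by
      rw [he]
      have : p - 1 ≠ 0 := by linarith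
      field_simp
    rwa [this]
  have hσ0 : 0 < σ := lt_trans (by positivity) hes
  set δ : ℝ := (σ / e - 1 / 3) / 2 with hδ
  have hδ0 : 0 < δ := by
    rw [hδ]
    have : 1 / 3 < σ / e := by
      rw [lt_div_iff₀ he0]
      linarith
    linarith
  set β : ℝ := 1 / 3 + δ with hβ
  have hβe : β * e = (e / 3 + σ) / 2 := by
    rw [hβ, hδ]
    field_simp
    ring
  set τ : ℝ := σ - β * e with hτ
  have hτ0 : 0 < τ := by
    rw [hτ, hβe]
    linarith
  set g1 : ℝ := (2 : ℝ) ^ (-δ) with hg1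
  set g2 : ℝ := (2 : ℝ) ^ (-τ) with hg2
  have g10 : 0 < g1 := by positivity
  have g20 : 0 < g2 := by positivity
  have g11 : g1 < 1 := Real.rpow_lt_one_of_one_lt_of_neg (by norm_num) (by linarith)
  have g21 : g2 < 1 := Real.rpow_lt_one_of_one_lt_of_neg (by norm_num) (by linarith)
  refine ⟨C1 * (1 / (1 - g1)) + 3 * C2 * (1 / (1 - g2)) + 3 * C2 * C3, by
    have : 0 < 1 - g1 := by linarith
    have : 0 < 1 - g2 := by linarith
    positivity, ?_⟩
  intro ι S H r N hN hb hc ht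
  have hN0 : 0 < N := by linarith
  have hN2 : (0 : ℝ) < N ^ 2 := by positivity
  set M : ℝ := N ^ ((2 : ℝ) / 3) with hM
  have hM0 : 0 < M := by positivity
  set k : ι → ℕ := fun q => kk (H q / N ^ 2) with hk
  have hk1 : ∀ q, H q ≤ 2 ^ k q * N ^ 2 := by
    intro q
    have := le_kk (H q / N ^ 2)
    rwa [div_le_iff₀ hN2] at this
  have hk2 : ∀ q, 1 ≤ k q → 2 ^ (k q - 1) * N ^ 2 < H q := by
    intro q hq
    have := lt_kk hq
    rwa [lt_div_iff₀ hN2] at this
  have hMη : N ^ (2 / 3 - η) = M * N ^ (-η) := by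
    rw [hM, ← Real.rpow_add hN0, sub_eq_add_neg]
  have hNη : 1 ≤ N ^ η := Real.one_le_rpow hN hη.le
  have hNη' : N ^ (-η) * N ^ η = 1 := by
    rw [← Real.rpow_add hN0]
    simp
  -- the small classes
  have hI : ∑ q ∈ S with (2 : ℝ) ^ k q ≤ N ^ η, x ^ r q ≤
      M * (C1 * (1 / (1 - g1)) + 3 * C2 * (1 / (1 - g2))) := by
    set B : ℕ := S.sup k + 1 with hB
    have hmaps : ∀ q ∈ S.filter (fun q => (2 : ℝ) ^ k q ≤ N ^ η), k q ∈ range B := by
      intro q hq
      have := Finset.le_sup (f := k) (mem_filter.1 hq).1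
      rw [mem_range]
      omega
    rw [← sum_fiberwise_of_maps_to hmaps]
    have hone : ∀ j ∈ range B, ∑ q ∈ (S.filter (fun q => (2 : ℝ) ^ k q ≤ N ^ η)) with k q = j,
        x ^ r q ≤ M * (C1 * g1 ^ j + 3 * C2 * g2 ^ j) := by
      intro j _
      rcases ((S.filter (fun q => (2 : ℝ) ^ k q ≤ N ^ η)).filter
        (fun q => k q = j)).eq_empty_or_nonempty with hE | ⟨q0, hq0⟩
      · rw [hE, sum_empty]
        positivity
      have hj : (2 : ℝ) ^ j ≤ N ^ η := by
        rw [mem_filter, mem_filter] at hq0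
        rw [← hq0.2]
        exact hq0.1.2
      set T := (S.filter (fun q => (2 : ℝ) ^ k q ≤ N ^ η)).filter (fun q => k q = j) with hT
      have hTm : ∀ q ∈ T, q ∈ S ∧ k q = j := by
        intro q hq
        rw [hT, mem_filter, mem_filter] at hq
        exact ⟨hq.1.1, hq.2⟩
      have h2j : (1 : ℝ) ≤ 2 ^ j := one_le_pow₀ (by norm_num)
      have hbox : ∑ q ∈ T, (4 : ℝ) ^ r q ≤ C1 * ((2 : ℝ) ^ j) ^ ((1 : ℝ) / 3) * M := by
        have h5 := hb (2 ^ j * N ^ 2) (by
          have : 1 ≤ N ^ 2 := one_le_pow₀ hN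
          nlinarith)
        have h6 : ((2 : ℝ) ^ j * N ^ 2) ^ ((1 : ℝ) / 3) = ((2 : ℝ) ^ j) ^ ((1 : ℝ) / 3) * M := by
          rw [Real.mul_rpow (by positivity) (by positivity), hM, ← Real.rpow_natCast N 2,
            ← Real.rpow_mul hN0.le]
          norm_num
        rw [h6, ← mul_assoc] at h5
        refine le_trans (sum_le_sum_of_subset_of_nonneg ?_ fun _ _ _ => by positivity) h5
        intro q hq
        obtain ⟨a1, a2⟩ := hTm q hq
        rw [mem_filter]
        refine ⟨a1, ?_⟩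
        rw [← a2]
        exact hk1 q
      rcases Nat.eq_zero_or_pos j with hj0 | hj1
      · -- class zero
        have h5 : ∑ q ∈ T, x ^ r q ≤ ∑ q ∈ T, (4 : ℝ) ^ r q := by
          refine sum_le_sum fun q _ => pow_le_pow_left₀ hx0.le ?_ _
          nlinarith [hx, mul_pos hx0 hx0]
        refine h5.trans (hbox.trans ?_)
        rw [hj0]
        simp only [pow_zero, Real.one_rpow, mul_one]
        nlinarith [mul_nonneg h2 hM0.le]
      · have hcard : ((#T : ℕ) : ℝ) ≤ C2 * (2 * ((2 : ℝ) ^ j) ^ (-σ) * M + M * N ^ (-η)) := by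
          have h5 := hc (2 ^ (j - 1)) (one_le_pow₀ (by norm_num))
          rw [hMη] at h5
          have h6 : T ⊆ S.filter (fun q => 2 ^ (j - 1) * N ^ 2 < H q) := by
            intro q hq
            obtain ⟨a1, a2⟩ := hTm q hq
            rw [mem_filter]
            refine ⟨a1, ?_⟩
            have := hk2 q (by omega)
            rwa [a2] at this
          have h7 : ((#T : ℕ) : ℝ) ≤ _ := Nat.cast_le.2 (card_le_card h6)
          refine h7.trans (h5.trans ?_)
          refine mul_le_mul_of_nonneg_left ?_ h2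
          have h8 : ((2 : ℝ) ^ (j - 1)) ^ (-σ) ≤ 2 * ((2 : ℝ) ^ j) ^ (-σ) := by
            have h9 : (2 : ℝ) ^ j = 2 ^ (j - 1) * 2 := by
              rw [← pow_succ]
              congr 1
              omega
            rw [h9, Real.mul_rpow (by positivity) (by norm_num)]
            have h10 : (1 : ℝ) ≤ 2 * (2 : ℝ) ^ (-σ) := by
              have h11 : (2 : ℝ) ^ (-(1 : ℝ)) ≤ (2 : ℝ) ^ (-σ) :=
                Real.rpow_le_rpow_of_exponent_le (by norm_num) (by linarith)
              rw [Real.rpow_neg_one] at h11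
              linarith
            have h11 : (0 : ℝ) ≤ ((2 : ℝ) ^ (j - 1)) ^ (-σ) := by positivity
            nlinarith
          have := mul_le_mul_of_nonneg_right h8 hM0.le
          linarith
        set lam : ℝ := ((2 : ℝ) ^ j) ^ (-β) with hlam
        have hlam0 : 0 < lam := by positivity
        have h5 : ∑ q ∈ T, x ^ r q ≤ lam * ∑ q ∈ T, (4 : ℝ) ^ r q + (#T : ℕ) * lam ^ (-e) := by
          have h6 : ∑ q ∈ T, x ^ r q ≤ ∑ q ∈ T, (lam * 4 ^ r q + lam ^ (-e)) :=
            sum_le_sum fun q _ => young hx (by linarith) hxp hlam0 (r q)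
          refine h6.trans (le_of_eq ?_)
          rw [sum_add_distrib, ← mul_sum, sum_const, nsmul_eq_mul]
        have h6 : lam ^ (-e) = ((2 : ℝ) ^ j) ^ (β * e) := by
          rw [hlam, ← Real.rpow_mul (by positivity)]
          congr 1
          ring
        have h7 : lam * (C1 * ((2 : ℝ) ^ j) ^ ((1 : ℝ) / 3) * M) = M * (C1 * g1 ^ j) := by
          have h8 : lam * ((2 : ℝ) ^ j) ^ ((1 : ℝ) / 3) = g1 ^ j := by
            rw [hlam, ← Real.rpow_add (by positivity), hg1, ← Real.rpow_natCast 2 j,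
              ← Real.rpow_mul (by norm_num), ← Real.rpow_natCast (2 ^ (-δ)) j,
              ← Real.rpow_mul (by norm_num)]
            congr 1
            rw [hβ]
            ring
          calc _ = (lam * ((2 : ℝ) ^ j) ^ ((1 : ℝ) / 3)) * C1 * M := by ring
            _ = _ := by rw [h8]; ring
        have h8 : ((2 : ℝ) ^ j) ^ (-σ) * ((2 : ℝ) ^ j) ^ (β * e) = g2 ^ j := by
          rw [← Real.rpow_add (by positivity), hg2, ← Real.rpow_natCast 2 j,
            ← Real.rpow_mul (by norm_num), ← Real.rpow_natCast (2 ^ (-τ)) j,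
            ← Real.rpow_mul (by norm_num)]
          congr 1
          rw [hτ]
          ring
        have h9 : N ^ (-η) * ((2 : ℝ) ^ j) ^ (β * e) ≤ g2 ^ j := by
          have h10 : ((2 : ℝ) ^ j) ^ (β * e) = ((2 : ℝ) ^ j) ^ σ * g2 ^ j := by
            rw [← h8, ← mul_assoc, ← Real.rpow_add (by positivity)]
            simp
          have h11 : ((2 : ℝ) ^ j) ^ σ ≤ N ^ η := by
            refine le_trans ?_ hj
            nth_rewrite 2 [← Real.rpow_one ((2 : ℝ) ^ j)]
            exact Real.rpow_le_rpow_of_exponent_le h2j hσ1.le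
          rw [h10, ← mul_assoc]
          have h12 : N ^ (-η) * ((2 : ℝ) ^ j) ^ σ ≤ 1 := by
            rw [← hNη']
            exact mul_le_mul_of_nonneg_left h11 (by positivity)
          have h13 : 0 ≤ g2 ^ j := by positivity
          nlinarith
        rw [h6] at h5
        refine h5.trans ?_
        have h10 : lam * ∑ q ∈ T, (4 : ℝ) ^ r q ≤ M * (C1 * g1 ^ j) := by
          rw [← h7]
          exact mul_le_mul_of_nonneg_left hbox hlam0.le
        have h11 : ((#T : ℕ) : ℝ) * ((2 : ℝ) ^ j) ^ (β * e) ≤ M * (3 * C2 * g2 ^ j) := by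
          refine (mul_le_mul_of_nonneg_right hcard (by positivity)).trans ?_
          have h12 : C2 * (2 * ((2 : ℝ) ^ j) ^ (-σ) * M + M * N ^ (-η)) *
              ((2 : ℝ) ^ j) ^ (β * e) = C2 * M * (2 * (((2 : ℝ) ^ j) ^ (-σ) *
                ((2 : ℝ) ^ j) ^ (β * e)) + N ^ (-η) * ((2 : ℝ) ^ j) ^ (β * e)) := by ring
          rw [h12, h8]
          have h13 : C2 * M * (2 * g2 ^ j + N ^ (-η) * ((2 : ℝ) ^ j) ^ (β * e)) ≤
              C2 * M * (2 * g2 ^ j + g2 ^ j) :=
            mul_le_mul_of_nonneg_left (by linarith) (by positivity)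
          refine h13.trans (le_of_eq ?_)
          ring
        linarith
    refine (sum_le_sum hone).trans ?_
    rw [← mul_sum, sum_add_distrib, ← mul_sum, ← mul_sum]
    refine mul_le_mul_of_nonneg_left ?_ hM0.le
    exact add_le_add (mul_le_mul_of_nonneg_left (geom_le g10.le g11 _) h1)
      (mul_le_mul_of_nonneg_left (geom_le g20.le g21 _) (by positivity))
  -- the large classes
  have hII : ∑ q ∈ S with ¬ (2 : ℝ) ^ k q ≤ N ^ η, x ^ r q ≤ M * (3 * C2 * C3) := by
    set T := S.filter (fun q => ¬ (2 : ℝ) ^ k q ≤ N ^ η) with hT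
    have hK1 : (1 : ℝ) ≤ max 1 (N ^ η / 2) := le_max_left _ _
    have h5 := hc (max 1 (N ^ η / 2)) hK1
    have hsub : T ⊆ S.filter (fun q => max 1 (N ^ η / 2) * N ^ 2 < H q) := by
      intro q hq
      rw [hT, mem_filter, not_le] at hq
      obtain ⟨a1, a2⟩ := hq
      have a3 : 1 ≤ k q := by
        by_contra h
        have : k q = 0 := by omega
        rw [this, pow_zero] at a2
        linarith
      have a4 := hk2 q a3
      have a5 : (2 : ℝ) ^ k q = 2 ^ (k q - 1) * 2 := by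
        rw [← pow_succ]
        congr 1
        omega
      rw [mem_filter]
      refine ⟨a1, lt_of_le_of_lt (mul_le_mul_of_nonneg_right ?_ hN2.le) a4⟩
      refine max_le (one_le_pow₀ (by norm_num)) ?_
      rw [a5] at a2
      linarith
    have hcard : ((#T : ℕ) : ℝ) ≤ C2 * (3 * (M * N ^ (-(η * σ)))) := by
      have h7 : ((#T : ℕ) : ℝ) ≤ _ := Nat.cast_le.2 (card_le_card hsub)
      refine h7.trans (h5.trans (mul_le_mul_of_nonneg_left ?_ h2))
      rw [hMη]
      have h8 : (max 1 (N ^ η / 2)) ^ (-σ) ≤ 2 * N ^ (-(η * σ)) := by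
        have h9 : (max 1 (N ^ η / 2)) ^ (-σ) ≤ (N ^ η / 2) ^ (-σ) :=
          Real.rpow_le_rpow_of_nonpos (by positivity) (le_max_right _ _) (by linarith)
        refine h9.trans ?_
        rw [Real.div_rpow (by positivity) (by norm_num), ← Real.rpow_mul hN0.le,
          Real.rpow_neg (by norm_num : (0 : ℝ) ≤ 2), div_inv_eq_mul, mul_comm]
        have h10 : (2 : ℝ) ^ σ ≤ 2 := by
          calc (2 : ℝ) ^ σ ≤ 2 ^ (1 : ℝ) :=
                Real.rpow_le_rpow_of_exponent_le (by norm_num) hσ1.le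
            _ = 2 := Real.rpow_one _
        have h11 : η * -σ = -(η * σ) := by ring
        rw [h11]
        exact mul_le_mul_of_nonneg_right h10 (by positivity)
      have h9 : N ^ (-η) ≤ N ^ (-(η * σ)) := by
        apply Real.rpow_le_rpow_of_exponent_le hN
        nlinarith
      have h10 := mul_le_mul_of_nonneg_right h8 hM0.le
      have h11 := mul_le_mul_of_nonneg_left h9 hM0.le
      linarith
    have h6 : ∑ q ∈ T, x ^ r q ≤ ∑ q ∈ T, C3 * N ^ (η * σ) := by
      refine sum_le_sum fun q hq => ?_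
      refine le_trans (pow_le_pow_left₀ hx0.le ?_ _) (ht q (mem_filter.1 hq).1)
      nlinarith [hx, mul_pos hx0 hx0]
    rw [sum_const, nsmul_eq_mul] at h6
    refine h6.trans ?_
    refine (mul_le_mul_of_nonneg_right hcard (by positivity)).trans (le_of_eq ?_)
    have h7 : N ^ (-(η * σ)) * N ^ (η * σ) = 1 := by
      rw [← Real.rpow_add hN0]
      simp
    calc _ = 3 * C2 * C3 * M * (N ^ (-(η * σ)) * N ^ (η * σ)) := by ring
      _ = _ := by rw [h7]; ring
  rw [← sum_filter_add_sum_filter_not S (fun q => (2 : ℝ) ^ k q ≤ N ^ η)]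
  refine (add_le_add hI hII).trans (le_of_eq ?_)
  ring

end Pool.Agent.L0h94.CO
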