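import Pool.Agent.L0h94.CO.Cur

/-!
# The orderings by the conductor, the minimal discriminant and the height
-/

set_option autoImplicit false

namespace Pool.Agent.L0h94.CO

open Finset Filter Pool.Agent.H925R.Szpiro Pool.Agent.Y679.Par Pool.Agent.Y679.Cur
  Pool.Agent.Y679.Jl Pool.Agent.TH498.AR Pool.Agent.L0h94.FT Pool.Agent.W262.RK
open Pool.Agent.W307.RT (Sh Cv HasT LOW)

/-- no prime `p` with `p⁴ ∣ A`, `p⁶ ∣ B`, and nonsingular -/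
def Minimal (A B : ℤ) : Prop :=
  4 * A ^ 3 + 27 * B ^ 2 ≠ 0 ∧ ∀ p : ℕ, p.Prime → ¬ ((p : ℤ) ^ 4 ∣ A ∧ (p : ℤ) ^ 6 ∣ B)

/-- the cubic splits -/
def Full (A B : ℤ) : Prop :=
  ∃ r₁ r₂ r₃ : ℚ, ∀ x : ℚ, x ^ 3 + A * x + B = (x - r₁) * (x - r₂) * (x - r₃)

/-- the discriminant of the cubic, up to sign -/
def Disc (A B : ℤ) : ℤ := 4 * A ^ 3 + 27 * B ^ 2

/-- the prime-to-6 part of the conductor -/
def Cond6 (A B : ℤ) : ℕ :=
  ∏ p ∈ (Disc A B).natAbs.primeFactors.filter (fun p => 5 ≤ p), if (p : ℤ) ∣ A then p ^ 2 else p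

lemma D_neg (A B : ℤ) : D (-A) (-B) = -(4 * A ^ 3 + 27 * B ^ 2) := by
  unfold D
  ring

lemma cond_neg (A B : ℤ) : condS (-A) (-B) = Cond6 A B := by
  unfold condS Cond6 Disc
  rw [D_neg, Int.natAbs_neg]
  refine prod_congr rfl fun p _ => ?_
  by_cases h : (p : ℤ) ∣ A
  · rw [if_pos h, if_pos ((dvd_neg).2 h)]
  · rw [if_neg h, if_neg (fun h' => h ((dvd_neg).1 h'))]

lemma full_neg (A B : ℤ) : FullS (-A) (-B) ↔ Full A B := by
  unfold FullS Full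
  push_cast
  have : ∀ x : ℚ, x ^ 3 - -(A : ℚ) * x - -(B : ℚ) = x ^ 3 + A * x + B := fun x => by ring
  simp only [this]

lemma min_neg (A B : ℤ) : IsMin (-A) (-B) ↔ Minimal A B := by
  constructor
  · rintro ⟨h1, h2⟩
    rw [D_neg] at h1 h2
    have h1' : 4 * A ^ 3 + 27 * B ^ 2 ≠ 0 := fun h => h1 (by rw [h, neg_zero])
    refine ⟨h1', ?_⟩
    rintro p hp ⟨⟨a, ha⟩, ⟨b, hb⟩⟩
    have hp0 : (p : ℚ) ≠ 0 := by exact_mod_cast hp.ne_zero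
    have h3 := h2 ((p : ℚ)⁻¹) (-a) (-b) (inv_ne_zero hp0)
      (by rw [ha]; push_cast; field_simp) (by rw [hb]; push_cast; field_simp)
    rw [D_neg, abs_neg, abs_neg] at h3
    have h4 : 4 * A ^ 3 + 27 * B ^ 2 = (p : ℤ) ^ 12 * (4 * a ^ 3 + 27 * b ^ 2) := by
      rw [ha, hb]
      ring
    have h5 : 4 * a ^ 3 + 27 * b ^ 2 ≠ 0 := fun h => h1' (by rw [h4, h, mul_zero])
    have h6 : 0 < |4 * a ^ 3 + 27 * b ^ 2| := abs_pos.2 h5
    rw [h4, abs_mul, abs_of_nonneg (by positivity : (0 : ℤ) ≤ (p : ℤ) ^ 12)] at h3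
    have h7 : (2 : ℤ) ≤ (p : ℤ) ^ 12 := by
      have h8 : (2 : ℤ) ≤ p := by exact_mod_cast hp.two_le
      calc (2 : ℤ) ≤ 2 ^ 12 := by norm_num
        _ ≤ _ := pow_le_pow_left₀ (by norm_num) h8 12
    nlinarith
  · rintro ⟨h1, h2⟩
    refine ⟨by rw [D_neg]; exact neg_ne_zero.2 h1, ?_⟩
    intro u a' b' hu ha hb
    push_cast at ha hb
    have hdn : (u.den : ℚ) ≠ 0 := by exact_mod_cast u.den_nz
    have hue : u = (u.num : ℚ) / (u.den : ℚ) := (Rat.num_div_den u).symm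
    have hnd : IsCoprime (u.den : ℤ) u.num := by
      have h1 := u.reduced
      exact Int.isCoprime_iff_gcd_eq_one.2 (by
        rw [Int.gcd_comm]; exact h1 : Int.gcd (u.den : ℤ) u.num = 1)
    have e1 : a' * (u.den : ℤ) ^ 4 = u.num ^ 4 * (-A) := by
      have : (a' : ℚ) * (u.den : ℚ) ^ 4 = (u.num : ℚ) ^ 4 * (-A) := by
        rw [ha]
        nth_rewrite 1 [hue]
        field_simp
      exact_mod_cast this
    have e2 : b' * (u.den : ℤ) ^ 6 = u.num ^ 6 * (-B) := by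
      have : (b' : ℚ) * (u.den : ℚ) ^ 6 = (u.num : ℚ) ^ 6 * (-B) := by
        rw [hb]
        nth_rewrite 1 [hue]
        field_simp
      exact_mod_cast this
    have d1 : (u.den : ℤ) ^ 4 ∣ A := by
      have h3 : (u.den : ℤ) ^ 4 ∣ u.num ^ 4 * (-A) := ⟨a', by rw [← e1]; ring⟩
      exact (dvd_neg).1 ((IsCoprime.pow hnd).dvd_of_dvd_mul_left h3)
    have d2 : (u.den : ℤ) ^ 6 ∣ B := by
      have h3 : (u.den : ℤ) ^ 6 ∣ u.num ^ 6 * (-B) := ⟨b', by rw [← e2]; ring⟩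
      exact (dvd_neg).1 ((IsCoprime.pow hnd).dvd_of_dvd_mul_left h3)
    have hden : u.den = 1 := by
      by_contra hne
      obtain ⟨q, hq, hqd⟩ := Nat.exists_prime_and_dvd hne
      have hqd' : (q : ℤ) ∣ (u.den : ℤ) := by exact_mod_cast hqd
      exact h2 q hq ⟨(pow_dvd_pow_of_dvd hqd' 4).trans d1, (pow_dvd_pow_of_dvd hqd' 6).trans d2⟩
    rw [hden] at e1 e2
    simp only [Nat.cast_one, one_pow, mul_one] at e1 e2
    have h4 : D a' b' = u.num ^ 12 * D (-A) (-B) := by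
      rw [e1, e2]
      unfold D
      ring
    rw [h4, abs_mul]
    have h5 : u.num ≠ 0 := Rat.num_ne_zero.2 hu
    have h6 : (1 : ℤ) ≤ |u.num ^ 12| := Int.one_le_abs (pow_ne_zero _ h5)
    exact le_mul_of_one_le_left (abs_nonneg _) h6

/-- the family -/
def Fam (I : ℤ × ℤ → ℕ) (X : ℕ) : Set (ℤ × ℤ) :=
  {c | Minimal c.1 c.2 ∧ Full c.1 c.2 ∧ I c ≤ X}

/-- the admissible factors -/
def Factor (f : ℤ × ℤ → ℕ) : Prop := ∀ c, 1 ≤ f c ∧ f c ≤ 2 ^ 8 * 3 ^ 5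

/-- the conductor, up to the factor at 2 and 3 -/
def Con (f : ℤ × ℤ → ℕ) (c : ℤ × ℤ) : ℕ := f c * Cond6 c.1 c.2

/-- the rank -/
noncomputable def rank (c : ℤ × ℤ) : ℕ := Module.finrank ℤ (Sh c.1 c.2).toAffine.Point

lemma rank_neg (c : ℤ × ℤ) : rk (-c) = rank c := by
  unfold rk rank
  rw [Eq_Sh, Prod.fst_neg, Prod.snd_neg, neg_neg, neg_neg]

lemma famC (f : ℤ × ℤ → ℕ) (X : ℕ) :
    Fam (Con f) X = Neg.neg ⁻¹' Md (fun q => f (-q)) (X : ℝ) := by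
  ext c
  obtain ⟨A, B⟩ := c
  simp only [Fam, Md, Con, Set.mem_ofPred_eq, Set.mem_preimage, Prod.neg_mk]
  rw [min_neg, full_neg, cond_neg, neg_neg, neg_neg]
  constructor
  · rintro ⟨h1, h2, h3⟩
    exact ⟨h1, h2, by exact_mod_cast h3⟩
  · rintro ⟨h1, h2, h3⟩
    exact ⟨h1, h2, by exact_mod_cast h3⟩

lemma fac_lam {f : ℤ × ℤ → ℕ} (hf : Factor f) :
    ∀ q : ℤ × ℤ, IsMin q.1 q.2 → FullS q.1 q.2 → 1 ≤ (fun q => f (-q)) q ∧
      (fun q => f (-q)) q ≤ 62208 := by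
  intro q _ _
  have := hf (-q)
  norm_num at this
  exact this

/-- from a bound of the sum to a bound of the average -/
lemma avg {A c Y0 Y s : ℝ} {n : ℕ} (hA : 0 ≤ A) (hc : 0 < c) (hY0 : 0 ≤ Y0)
    (h1 : s ≤ A * Y) (h2 : Y0 ≤ Y → c * Y ≤ n) (h3 : n = 0 → s = 0) :
    s ≤ (A * Y0 + A / c) * n := by
  rcases Nat.eq_zero_or_pos n with h | h
  · rw [h3 h, h]
    simp
  have hn : (1 : ℝ) ≤ n := by exact_mod_cast h
  rcases le_total Y0 Y with h4 | h4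
  · have h5 := h2 h4
    have h6 : A * Y = A / c * (c * Y) := by field_simp
    have h7 : A / c * (c * Y) ≤ A / c * n := mul_le_mul_of_nonneg_left h5 (by positivity)
    have h8 : 0 ≤ A * Y0 * n := by positivity
    nlinarith
  · have h5 : A * Y ≤ A * Y0 := mul_le_mul_of_nonneg_left h4 hA
    have h6 : A * Y0 ≤ A * Y0 * n := le_mul_of_one_le_right (by positivity) hn
    have h7 : 0 ≤ A / c * n := by positivity
    nlinarith

/-- the sum over a subset of the family -/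
lemma sumF {x : ℝ} (hx : 0 < x) (hx3 : x ^ 3 < 4) : ∃ C : ℝ, 0 ≤ C ∧ ∀ N : ℝ, 1 ≤ N →
    ∀ S : Set (ℤ × ℤ), (∀ c ∈ S, Minimal c.1 c.2 ∧ Full c.1 c.2 ∧ (Cond6 c.1 c.2 : ℝ) ≤ N) →
    S.Finite ∧ ∑ᶠ c ∈ S, x ^ rank c ≤ C * N ^ ((2 : ℝ) / 3) := by
  classical
  obtain ⟨C, hC, h⟩ := sumC (x := max x (5 / 4)) (by
    have := le_max_right x (5 / 4)
    linarith) (by
    rcases max_choice x (5 / 4) with h | h
    · rw [h]; exact hx3
    · rw [h]; norm_num)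
  refine ⟨C, hC, fun N hN S hS => ?_⟩
  have hone : ∀ q : ℤ × ℤ, IsMin q.1 q.2 → FullS q.1 q.2 → 1 ≤ (fun _ : ℤ × ℤ => 1) q :=
    fun _ _ _ => le_rfl
  have hfin := Md_fin hone hN
  have hsub : Neg.neg '' S ⊆ Md (fun _ => 1) N := by
    rintro q ⟨c, hc, rfl⟩
    obtain ⟨a1, a2, a3⟩ := hS c hc
    refine ⟨?_, ?_, ?_⟩
    · exact (min_neg _ _).2 a1
    · exact (full_neg _ _).2 a2
    · rw [one_mul]
      have : condS (-c).1 (-c).2 = Cond6 c.1 c.2 := cond_neg _ _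
      rw [this]
      exact a3
  have hSf : S.Finite := by
    have h1 : (Neg.neg '' S).Finite := hfin.subset hsub
    exact h1.of_finite_image (neg_injective.injOn)
  refine ⟨hSf, ?_⟩
  have h1 := h (fun _ => 1) hone N hN hfin.toFinset (by simp)
  refine le_trans ?_ h1
  rw [finsum_mem_eq_finite_toFinset_sum _ hSf]
  have h2 : ∑ c ∈ hSf.toFinset, x ^ rank c ≤ ∑ c ∈ hSf.toFinset, (max x (5 / 4)) ^ rk (-c) := by
    refine sum_le_sum fun c _ => ?_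
    rw [rank_neg]
    exact pow_le_pow_left₀ hx.le (le_max_left _ _) _
  refine h2.trans ?_
  have h3 : ∑ c ∈ hSf.toFinset, (max x (5 / 4)) ^ rk (-c) =
      ∑ q ∈ hSf.toFinset.image Neg.neg, (max x (5 / 4)) ^ rk q := by
    rw [sum_image (neg_injective.injOn)]
  rw [h3]
  apply sum_le_sum_of_subset_of_nonneg
  · intro q hq
    obtain ⟨c, hc, rfl⟩ := mem_image.1 hq
    rw [Set.Finite.mem_toFinset] at hc ⊢
    exact hsub ⟨c, hc, rfl⟩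
  · intro q _ _
    have : 0 < max x (5 / 4) := lt_max_of_lt_left hx
    positivity

/-- the lower bound for the number of the curves, conductor -/
lemma lowC : ∃ c N0 : ℝ, 0 < c ∧ 1 ≤ N0 ∧ ∀ f : ℤ × ℤ → ℕ, Factor f → ∀ X : ℕ, N0 ≤ (X : ℝ) →
    c * (X : ℝ) ^ ((2 : ℝ) / 3) ≤ ((Fam (Con f) X).ncard : ℝ) := by
  obtain ⟨c0, C0, hc0, hC0, h⟩ := Pool.Agent.Y679.Fh.Hg_ge
  refine ⟨c0, max C0 1, hc0, le_max_right _ _, fun f hf X hX => ?_⟩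
  have hX1 : (1 : ℝ) ≤ X := (le_max_right _ _).trans hX
  have h1 := h (fun q => f (-q)) (fac_lam hf) X 0 le_rfl (by
    rw [mul_zero, Real.exp_zero, mul_one]
    exact (le_max_left _ _).trans hX)
  rw [mul_zero, neg_zero, Real.exp_zero, one_mul] at h1
  refine h1.trans (Nat.cast_le.2 ?_)
  have hfin := Md_fin (fun q a b => (fac_lam hf q a b).1) hX1
  have h2 : (Fam (Con f) X).ncard = (Md (fun q => f (-q)) (X : ℝ)).ncard := by
    rw [famC, ← Set.ncard_image_of_injective _ neg_injective,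
      Set.image_preimage_eq _ neg_surjective]
  rw [h2]
  exact Set.ncard_le_ncard (fun q hq => hq.1) hfin

/-- the upper bound for the number of the curves -/
lemma upS : ∃ C : ℝ, 0 < C ∧ ∀ N : ℝ, 1 ≤ N →
    ∀ S : Set (ℤ × ℤ), (∀ c ∈ S, Minimal c.1 c.2 ∧ Full c.1 c.2 ∧ (Cond6 c.1 c.2 : ℝ) ≤ N) →
    (S.ncard : ℝ) ≤ C * N ^ ((2 : ℝ) / 3) := by
  obtain ⟨C, hC, h⟩ := sumF (x := 1) one_pos (by norm_num)
  refine ⟨C + 1, by linarith, fun N hN S hS => ?_⟩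
  obtain ⟨h1, h2⟩ := h N hN S hS
  rw [finsum_mem_eq_finite_toFinset_sum _ h1] at h2
  simp only [one_pow, sum_const, nsmul_eq_mul, mul_one] at h2
  rw [Set.ncard_eq_toFinset_card _ h1]
  refine h2.trans (mul_le_mul_of_nonneg_right (by linarith) (by positivity))

/-- the absolute value of the minimal discriminant -/
noncomputable def minDisc (W : WeierstrassCurve ℚ) : ℕ :=
  sInf {n : ℕ | ∃ (V : WeierstrassCurve ℤ) (C : WeierstrassCurve.VariableChange ℚ),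
    C • W = V.map (Int.castRingHom ℚ) ∧ n = V.Δ.natAbs}

/-- the naive height -/
def height (c : ℤ × ℤ) : ℕ := (max (4 * |c.1| ^ 3) (27 * c.2 ^ 2)).toNat

/-- the minimal discriminant of a member -/
noncomputable def mD (c : ℤ × ℤ) : ℕ := minDisc (Sh c.1 c.2)

lemma mD_eq (c : ℤ × ℤ) : mD c = Pool.Agent.Y679.Fh.minDisc (Pool.Agent.Y679.Fh.Eq (-c)) := by
  rw [Eq_Sh]
  simp only [Prod.fst_neg, Prod.snd_neg, neg_neg]
  rfl

lemma height_eq (c : ℤ × ℤ) : ((height c : ℕ) : ℤ) = Hh (-c) := by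
  unfold height Hh
  rw [Int.toNat_of_nonneg (by positivity)]
  simp

lemma Dq {c : ℤ × ℤ} (h1 : Minimal c.1 c.2) (h2 : Full c.1 c.2) :
    (Cond6 c.1 c.2 : ℝ) ^ 2 ≤ (((D (-c).1 (-c).2).natAbs : ℕ) : ℝ) ∧
      (D (-c).1 (-c).2).natAbs ≤ height c := by
  have m1 : IsMin (-c).1 (-c).2 := (min_neg _ _).2 h1
  have m2 : FullS (-c).1 (-c).2 := (full_neg _ _).2 h2
  have hD := Pool.Agent.Y679.Fh.D_pos m1 m2
  have h3 : ((D (-c).1 (-c).2).natAbs : ℤ) = D (-c).1 (-c).2 := Int.natAbs_of_nonneg hD.le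
  constructor
  · obtain ⟨w, hw, he⟩ := quot m1 m2
    have hc : condS (-c).1 (-c).2 = Cond6 c.1 c.2 := cond_neg _ _
    rw [hc] at he
    have h4 : (D (-c).1 (-c).2).natAbs = (w * Cond6 c.1 c.2) ^ 2 := by
      rw [he, Int.natAbs_pow, Int.natAbs_natCast]
    rw [h4]
    have h5 : (Cond6 c.1 c.2) ^ 2 ≤ (w * Cond6 c.1 c.2) ^ 2 :=
      Nat.pow_le_pow_left (Nat.le_mul_of_pos_left _ hw) 2
    exact_mod_cast h5
  · have h4 := Pool.Agent.Y679.Fh.D_le hD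
    rw [← height_eq, ← h3] at h4
    exact_mod_cast h4

/-- members with small minimal discriminant have small conductor -/
lemma cond_mD {c : ℤ × ℤ} (h1 : Minimal c.1 c.2) (h2 : Full c.1 c.2) :
    (Cond6 c.1 c.2 : ℝ) ≤ 11664 * Real.sqrt (mD c) := by
  have m1 : IsMin (-c).1 (-c).2 := (min_neg _ _).2 h1
  have h3 := Pool.Agent.Y679.Fh.minDisc_ge m1
  rw [← mD_eq] at h3
  have h4 := (Dq h1 h2).1
  have h5 : (((D (-c).1 (-c).2).natAbs : ℕ) : ℝ) ≤ 136048896 * (mD c : ℝ) := by exact_mod_cast h3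
  have h6 : (Cond6 c.1 c.2 : ℝ) ^ 2 ≤ (11664 * Real.sqrt (mD c)) ^ 2 := by
    rw [mul_pow, Real.sq_sqrt (Nat.cast_nonneg _)]
    norm_num
    linarith
  exact (pow_le_pow_iff_left₀ (Nat.cast_nonneg _) (by positivity) two_ne_zero).1 h6

lemma mD_height {c : ℤ × ℤ} (h1 : Minimal c.1 c.2) (h2 : Full c.1 c.2) : mD c ≤ 16 * height c := by
  rw [mD_eq]
  refine (Pool.Agent.Y679.Fh.minDisc_le _).trans ?_
  exact Nat.mul_le_mul_left _ (Dq h1 h2).2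

/-- the members of `Cv` -/
lemma cv_fam {H : ℕ} {c : ℤ × ℤ} (hc : c ∈ Cv 2 H) : Minimal c.1 c.2 ∧ Full c.1 c.2 ∧
    height c ≤ H := by
  have h0 := Fr_rl hc
  unfold Cv at hc
  simp only [mem_filter] at hc
  obtain ⟨-, h1, h2, h3, h4, -⟩ := hc
  refine ⟨⟨h1, h4⟩, ?_, ?_⟩
  · obtain ⟨e, -, -, h5, h6, h7⟩ := h0
    refine ⟨e, e + (Fr c).1, e + (Fr c).1 + (Fr c).2, fun x => ?_⟩
    have h8 : ((Fr c).2 : ℚ) = -(3 * e) - 2 * (Fr c).1 := by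
      have : (3 : ℚ) * e + 2 * (Fr c).1 + (Fr c).2 = 0 := by exact_mod_cast h5
      linarith
    rw [h6, h7]
    push_cast
    rw [h8]
    ring
  · unfold height
    rw [Int.toNat_le]
    exact max_le h2 h3

/-- the lower bound, any invariant bounded by a multiple of the height -/
lemma lowI (I : ℤ × ℤ → ℕ) (hI : ∀ c : ℤ × ℤ, Minimal c.1 c.2 → Full c.1 c.2 → I c ≤ 16 * height c)
    (hfin : ∀ X : ℕ, (Fam I X).Finite) :
    ∃ c X0 : ℝ, 0 < c ∧ 0 ≤ X0 ∧ ∀ X : ℕ, X0 ≤ (X : ℝ) →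
      c * (X : ℝ) ^ ((1 : ℝ) / 3) ≤ ((Fam I X).ncard : ℝ) := by
  obtain ⟨c, C, T0, hc, h⟩ := low2
  set K : ℕ := 16 * (C + 1) with hK
  refine ⟨c / (4 * (K : ℝ) ^ ((1 : ℝ) / 3)), (K : ℝ) * (T0 + 1) ^ 6, by positivity, by positivity,
    fun X hX => ?_⟩
  have hK0 : (0 : ℝ) < K := by
    rw [hK]
    positivity
  have hK1 : (1 : ℝ) ≤ K := by
    rw [hK]
    exact_mod_cast (by omega : 1 ≤ 16 * (C + 1))
  have hX0 : (0 : ℝ) < X := lt_of_lt_of_le (by positivity) hX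
  set T : ℕ := ⌊((X : ℝ) / K) ^ ((1 : ℝ) / 6)⌋₊ with hT
  have hXK : 0 ≤ (X : ℝ) / K := by positivity
  have hT1 : T0 + 1 ≤ T := by
    rw [hT]
    apply Nat.le_floor
    push_cast
    have h1 : ((T0 : ℝ) + 1) ^ 6 ≤ (X : ℝ) / K := by
      rw [le_div_iff₀ hK0]
      linarith
    have h2 := Real.rpow_le_rpow (by positivity) h1 (by norm_num : (0 : ℝ) ≤ 1 / 6)
    rwa [← Real.rpow_natCast, ← Real.rpow_mul (by positivity),
      show ((6 : ℕ) : ℝ) * (1 / 6) = 1 by norm_num, Real.rpow_one] at h2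
  have hTle : (T : ℝ) ^ 6 ≤ (X : ℝ) / K := by
    have h1 : (T : ℝ) ≤ ((X : ℝ) / K) ^ ((1 : ℝ) / 6) := Nat.floor_le (by positivity)
    have h2 := pow_le_pow_left₀ (Nat.cast_nonneg _) h1 6
    rwa [← Real.rpow_natCast (((X : ℝ) / K) ^ ((1 : ℝ) / 6)) 6, ← Real.rpow_mul hXK,
      show (1 / 6 : ℝ) * ((6 : ℕ) : ℝ) = 1 by norm_num, Real.rpow_one] at h2
  have hH : C * T ^ 6 ≤ X / 16 := by
    rw [Nat.le_div_iff_mul_le (by norm_num)]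
    have h1 : (T : ℝ) ^ 6 * K ≤ X := by
      rwa [le_div_iff₀ hK0] at hTle
    have h2 : T ^ 6 * K ≤ X := by exact_mod_cast h1
    refine le_trans ?_ h2
    rw [hK]
    nlinarith [Nat.zero_le (T ^ 6)]
  have h1 := h T (X / 16) (by omega) hH
  have h2 : ((Cv 2 (X / 16)).card : ℝ) ≤ ((Fam I X).ncard : ℝ) := by
    rw [← Set.ncard_coe_finset]
    refine Nat.cast_le.2 (Set.ncard_le_ncard ?_ (hfin X))
    intro q hq
    obtain ⟨a1, a2, a3⟩ := cv_fam (mem_coe.1 hq)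
    refine ⟨a1, a2, (hI q a1 a2).trans ?_⟩
    calc 16 * height q ≤ 16 * (X / 16) := Nat.mul_le_mul_left _ a3
      _ ≤ X := Nat.mul_div_le _ _
  refine le_trans ?_ (h1.trans h2)
  have h3 : ((X : ℝ) / K) ^ ((1 : ℝ) / 6) ≤ 2 * T := by
    have h4 : ((X : ℝ) / K) ^ ((1 : ℝ) / 6) < T + 1 := Nat.lt_floor_add_one _
    have h5 : (1 : ℝ) ≤ T := by exact_mod_cast (by omega : 1 ≤ T)
    linarith
  have h4 : (((X : ℝ) / K) ^ ((1 : ℝ) / 6)) ^ 2 ≤ (2 * (T : ℝ)) ^ 2 :=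
    pow_le_pow_left₀ (by positivity) h3 2
  have h5 : (((X : ℝ) / K) ^ ((1 : ℝ) / 6)) ^ 2 =
      (X : ℝ) ^ ((1 : ℝ) / 3) / (K : ℝ) ^ ((1 : ℝ) / 3) := by
    rw [← Real.rpow_natCast, ← Real.rpow_mul hXK, ← Real.div_rpow hX0.le hK0.le]
    norm_num
  rw [h5] at h4
  have h6 : c / (4 * (K : ℝ) ^ ((1 : ℝ) / 3)) * (X : ℝ) ^ ((1 : ℝ) / 3) =
      c / 4 * ((X : ℝ) ^ ((1 : ℝ) / 3) / (K : ℝ) ^ ((1 : ℝ) / 3)) := by
    field_simp
  rw [h6]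
  calc c / 4 * ((X : ℝ) ^ ((1 : ℝ) / 3) / (K : ℝ) ^ ((1 : ℝ) / 3)) ≤ c / 4 * (2 * (T : ℝ)) ^ 2 :=
        mul_le_mul_of_nonneg_left h4 (by positivity)
    _ = c * (T : ℝ) ^ 2 := by ring

/-- **Conductor** -/
theorem thmC {x : ℝ} (hx : 0 < x) (hx3 : x ^ 3 < 4) : ∃ C : ℝ, ∀ f : ℤ × ℤ → ℕ, Factor f →
    ∀ X : ℕ, (Fam (Con f) X).Finite ∧
      ∑ᶠ c ∈ Fam (Con f) X, x ^ rank c ≤ C * ((Fam (Con f) X).ncard : ℝ) := by
  obtain ⟨C, hC, h⟩ := sumF hx hx3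
  obtain ⟨c, N0, hc, hN0, hlow⟩ := lowC
  refine ⟨C * N0 ^ ((2 : ℝ) / 3) + C / c, fun f hf X => ?_⟩
  have hsub : ∀ q ∈ Fam (Con f) X, Minimal q.1 q.2 ∧ Full q.1 q.2 ∧ 1 ≤ X ∧
      (Cond6 q.1 q.2 : ℝ) ≤ X := by
    rintro q ⟨a1, a2, a3⟩
    have h1 := (hf q).1
    have h2 : 0 < Cond6 q.1 q.2 := by
      rw [← cond_neg]
      exact condS_pos _ _
    have h3 : Cond6 q.1 q.2 ≤ X := (Nat.le_mul_of_pos_left _ h1).trans a3
    exact ⟨a1, a2, by omega, by exact_mod_cast h3⟩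
  rcases (Fam (Con f) X).eq_empty_or_nonempty with hE | ⟨q0, hq0⟩
  · rw [hE]
    simp
  have hX1 : (1 : ℝ) ≤ X := by exact_mod_cast (hsub q0 hq0).2.2.1
  obtain ⟨h1, h2⟩ := h X hX1 (Fam (Con f) X) (fun q hq => ⟨(hsub q hq).1, (hsub q hq).2.1,
    (hsub q hq).2.2.2⟩)
  refine ⟨h1, avg hC hc (by positivity) h2 ?_ ?_⟩
  · intro h3
    apply hlow f hf X
    have := (Real.rpow_le_rpow_iff (by linarith) (by linarith)
      (by norm_num : (0 : ℝ) < 2 / 3)).1 h3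
    exact this
  · intro h3
    rw [Set.ncard_eq_zero h1] at h3
    rw [h3]
    simp

/-- **Invariants between the square of the conductor and the height** -/
theorem thmI (I : ℤ × ℤ → ℕ)
    (hI : ∀ c : ℤ × ℤ, Minimal c.1 c.2 → Full c.1 c.2 → I c ≤ 16 * height c)
    (hI2 : ∀ c : ℤ × ℤ, Minimal c.1 c.2 → Full c.1 c.2 →
      (Cond6 c.1 c.2 : ℝ) ≤ 11664 * Real.sqrt (I c)) :
    (∀ X : ℕ, (Fam I X).Finite) ∧ (∃ c C X0 : ℝ, 0 < c ∧ 0 ≤ X0 ∧ ∀ X : ℕ, X0 ≤ (X : ℝ) →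
      c * (X : ℝ) ^ ((1 : ℝ) / 3) ≤ ((Fam I X).ncard : ℝ) ∧
      ((Fam I X).ncard : ℝ) ≤ C * (X : ℝ) ^ ((1 : ℝ) / 3)) ∧
    ∀ x : ℝ, 0 < x → x ^ 3 < 4 → ∃ C : ℝ, ∀ X : ℕ,
      ∑ᶠ c ∈ Fam I X, x ^ rank c ≤ C * ((Fam I X).ncard : ℝ) := by
  have hsub : ∀ X : ℕ, ∀ q ∈ Fam I X, Minimal q.1 q.2 ∧ Full q.1 q.2 ∧
      (Cond6 q.1 q.2 : ℝ) ≤ 11664 * Real.sqrt X := by
    rintro X q ⟨a1, a2, a3⟩
    refine ⟨a1, a2, (hI2 q a1 a2).trans ?_⟩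
    refine mul_le_mul_of_nonneg_left (Real.sqrt_le_sqrt ?_) (by norm_num)
    exact_mod_cast a3
  have hsub' : ∀ X : ℕ, ∀ q ∈ Fam I X, Minimal q.1 q.2 ∧ Full q.1 q.2 ∧
      (Cond6 q.1 q.2 : ℝ) ≤ max 1 (11664 * Real.sqrt X) := fun X q hq =>
    ⟨(hsub X q hq).1, (hsub X q hq).2.1, (hsub X q hq).2.2.trans (le_max_right _ _)⟩
  have hpow : ∀ X : ℕ, (1 : ℝ) ≤ X → (max 1 (11664 * Real.sqrt X)) ^ ((2 : ℝ) / 3) =
      11664 ^ ((2 : ℝ) / 3) * (X : ℝ) ^ ((1 : ℝ) / 3) := by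
    intro X hX
    have h1 : 1 ≤ Real.sqrt X := Real.one_le_sqrt.2 hX
    rw [max_eq_right (by linarith), Real.mul_rpow (by norm_num) (Real.sqrt_nonneg _),
      Real.sqrt_eq_rpow, ← Real.rpow_mul (by linarith)]
    norm_num
  have hfin : ∀ X : ℕ, (Fam I X).Finite := by
    intro X
    obtain ⟨C, hC, h⟩ := sumF (x := 1) one_pos (by norm_num)
    exact (h _ (le_max_left _ _) (Fam I X) (hsub' X)).1
  obtain ⟨c, X0, hc, hX0, hlow⟩ := lowI I hI hfin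
  refine ⟨hfin, ?_, ?_⟩
  · obtain ⟨C, hC, h⟩ := upS
    refine ⟨c, C * 11664 ^ ((2 : ℝ) / 3), max X0 1, hc, le_max_of_le_left hX0, fun X hX => ⟨hlow X
      ((le_max_left _ _).trans hX), ?_⟩⟩
    have h1 := h _ (le_max_left _ _) (Fam I X) (hsub' X)
    rwa [hpow X ((le_max_right _ _).trans hX), ← mul_assoc] at h1
  · intro x hx hx3
    obtain ⟨C, hC, h⟩ := sumF hx hx3
    refine ⟨C * 11664 ^ ((2 : ℝ) / 3) * X0 ^ ((1 : ℝ) / 3) + C * 11664 ^ ((2 : ℝ) / 3) / c + C,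
      fun X => ?_⟩
    obtain ⟨h1, h2⟩ := h _ (le_max_left _ _) (Fam I X) (hsub' X)
    rcases Nat.eq_zero_or_pos X with hX | hX
    · -- only `X = 0`
      rw [hX] at h1 h2 ⊢
      have h3 : (max 1 (11664 * Real.sqrt ((0 : ℕ) : ℝ))) ^ ((2 : ℝ) / 3) = 1 := by
        simp
      rw [h3, mul_one] at h2
      rcases Nat.eq_zero_or_pos ((Fam I 0).ncard) with h4 | h4
      · rw [Set.ncard_eq_zero h1] at h4
        rw [h4]
        simp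
      · have h5 : (1 : ℝ) ≤ ((Fam I 0).ncard : ℝ) := by exact_mod_cast h4
        refine h2.trans ?_
        have h6 : 0 ≤ C * 11664 ^ ((2 : ℝ) / 3) * X0 ^ ((1 : ℝ) / 3) +
            C * 11664 ^ ((2 : ℝ) / 3) / c := by positivity
        nlinarith
    · have hX1 : (1 : ℝ) ≤ X := by exact_mod_cast hX
      rw [hpow X hX1, ← mul_assoc] at h2
      have h3 := avg (n := (Fam I X).ncard) (Y0 := X0 ^ ((1 : ℝ) / 3)) (c := c)
        (by positivity) hc (by positivity) h2 (by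
          intro h3
          apply hlow X
          exact (Real.rpow_le_rpow_iff hX0 (by linarith) (by norm_num : (0 : ℝ) < 1 / 3)).1 h3) (by
          intro h3
          rw [Set.ncard_eq_zero h1] at h3
          rw [h3]
          simp)
      refine h3.trans (mul_le_mul_of_nonneg_right ?_ (Nat.cast_nonneg _))
      linarith

theorem thmD : (∀ X : ℕ, (Fam mD X).Finite) ∧ (∃ c C X0 : ℝ, 0 < c ∧ 0 ≤ X0 ∧ ∀ X : ℕ,
      X0 ≤ (X : ℝ) → c * (X : ℝ) ^ ((1 : ℝ) / 3) ≤ ((Fam mD X).ncard : ℝ) ∧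
      ((Fam mD X).ncard : ℝ) ≤ C * (X : ℝ) ^ ((1 : ℝ) / 3)) ∧
    ∀ x : ℝ, 0 < x → x ^ 3 < 4 → ∃ C : ℝ, ∀ X : ℕ,
      ∑ᶠ c ∈ Fam mD X, x ^ rank c ≤ C * ((Fam mD X).ncard : ℝ) :=
  thmI mD (fun _ h1 h2 => mD_height h1 h2) (fun _ h1 h2 => cond_mD h1 h2)

theorem thmH : (∀ X : ℕ, (Fam height X).Finite) ∧ (∃ c C X0 : ℝ, 0 < c ∧ 0 ≤ X0 ∧ ∀ X : ℕ,
      X0 ≤ (X : ℝ) → c * (X : ℝ) ^ ((1 : ℝ) / 3) ≤ ((Fam height X).ncard : ℝ) ∧
      ((Fam height X).ncard : ℝ) ≤ C * (X : ℝ) ^ ((1 : ℝ) / 3)) ∧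
    ∀ x : ℝ, 0 < x → x ^ 3 < 4 → ∃ C : ℝ, ∀ X : ℕ,
      ∑ᶠ c ∈ Fam height X, x ^ rank c ≤ C * ((Fam height X).ncard : ℝ) := by
  refine thmI height (fun _ _ _ => by omega) (fun c h1 h2 => ?_)
  have h3 := Dq h1 h2
  have h4 : (Cond6 c.1 c.2 : ℝ) ^ 2 ≤ height c := h3.1.trans (by exact_mod_cast h3.2)
  have h5 : (Cond6 c.1 c.2 : ℝ) ≤ Real.sqrt (height c) := Real.le_sqrt_of_sq_le h4
  have h6 := Real.sqrt_nonneg (height c : ℝ)
  linarith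

theorem cntC : ∃ c C X0 : ℝ, 0 < c ∧ ∀ f : ℤ × ℤ → ℕ, Factor f → ∀ X : ℕ, X0 ≤ (X : ℝ) →
    c * (X : ℝ) ^ ((2 : ℝ) / 3) ≤ ((Fam (Con f) X).ncard : ℝ) ∧
    ((Fam (Con f) X).ncard : ℝ) ≤ C * (X : ℝ) ^ ((2 : ℝ) / 3) := by
  obtain ⟨c, N0, hc, hN0, hlow⟩ := lowC
  obtain ⟨C, hC, h⟩ := upS
  refine ⟨c, C, N0, hc, fun f hf X hX => ⟨hlow f hf X hX, ?_⟩⟩
  refine h X (hN0.trans hX) _ ?_
  rintro q ⟨a1, a2, a3⟩
  have h1 := (hf q).1
  have h3 : Cond6 q.1 q.2 ≤ X := (Nat.le_mul_of_pos_left _ h1).trans a3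
  exact ⟨a1, a2, by exact_mod_cast h3⟩

end Pool.Agent.L0h94.CO
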